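import Mathlib

set_option autoImplicit false

namespace Pool.Agent.P.MP_daa8d5_co

open Metric Set Filter Topology

variable {d : ℕ}

noncomputable local instance decE (d : ℕ) : DecidableEq (EuclideanSpace ℝ (Fin d)) := Classical.decEq _

/-- A point of the hull that needs every point of `A`: then `A` is affinely independent. -/
lemma indep_of_essential (A : Finset (EuclideanSpace ℝ (Fin d))) (y : EuclideanSpace ℝ (Fin d))
    (hy : y ∈ convexHull ℝ (A : Set (EuclideanSpace ℝ (Fin d))))
    (hess : ∀ x ∈ A, y ∉ convexHull ℝ ((A.erase x : Finset _) : Set (EuclideanSpace ℝ (Fin d)))) :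
    AffineIndependent ℝ ((↑) : A → EuclideanSpace ℝ (Fin d)) := by
  rw [convexHull_eq_union] at hy
  simp only [mem_iUnion] at hy
  obtain ⟨T, hT, hind, hyT⟩ := hy
  have : T = A := by
    apply Finset.Subset.antisymm (by exact_mod_cast hT)
    intro x hx
    by_contra hxT
    apply hess x hx
    refine convexHull_mono ?_ hyT
    intro w hw
    have hw' : w ∈ T := by exact_mod_cast hw
    have hwA : w ∈ A := by exact_mod_cast hT hw
    have : w ≠ x := fun h => hxT (h ▸ hw')
    simp [this, hwA]
  subst this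
  exact hind

lemma card_le_of_essential (A : Finset (EuclideanSpace ℝ (Fin d))) (y : EuclideanSpace ℝ (Fin d))
    (hy : y ∈ convexHull ℝ (A : Set (EuclideanSpace ℝ (Fin d))))
    (hess : ∀ x ∈ A, y ∉ convexHull ℝ ((A.erase x : Finset _) : Set (EuclideanSpace ℝ (Fin d)))) :
    A.card ≤ d + 1 := by
  have h := (indep_of_essential A y hy hess).card_le_finrank_succ
  have h2 : Module.finrank ℝ (vectorSpan ℝ (Set.range ((↑) : A → EuclideanSpace ℝ (Fin d)))) ≤ d := by
    have := Submodule.finrank_le (vectorSpan ℝ (Set.range ((↑) : A → EuclideanSpace ℝ (Fin d))))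
    simpa using this
  simp only [Fintype.card_coe] at h
  omega

lemma interior_of_essential (A : Finset (EuclideanSpace ℝ (Fin d))) (y : EuclideanSpace ℝ (Fin d))
    (hy : y ∈ convexHull ℝ (A : Set (EuclideanSpace ℝ (Fin d))))
    (hess : ∀ x ∈ A, y ∉ convexHull ℝ ((A.erase x : Finset _) : Set (EuclideanSpace ℝ (Fin d))))
    (hc : A.card = d + 1) :
    y ∈ interior (convexHull ℝ (A : Set (EuclideanSpace ℝ (Fin d)))) := by
  have hind := indep_of_essential A y hy hess
  have htop : affineSpan ℝ (Set.range ((↑) : A → EuclideanSpace ℝ (Fin d))) = ⊤ := by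
    rw [hind.affineSpan_eq_top_iff_card_eq_finrank_add_one]
    simp [hc]
  let b : AffineBasis A ℝ (EuclideanSpace ℝ (Fin d)) := ⟨(↑), hind, htop⟩
  have hr : Set.range b = (A : Set (EuclideanSpace ℝ (Fin d))) := by
    ext w; constructor
    · rintro ⟨i, rfl⟩; exact i.2
    · intro hw; exact ⟨⟨w, hw⟩, rfl⟩
  rw [← hr, b.interior_convexHull]
  rw [← hr, b.convexHull_eq_nonneg_coord] at hy
  intro i
  rcases (hy i).lt_or_eq with h | h
  · exact h
  · exfalso
    apply hess i.1 i.2
    have hsum := b.sum_coord_apply_eq_one y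
    have hlin := b.linear_combination_coord_eq_self y
    rw [← Finset.add_sum_erase _ _ (Finset.mem_univ i), ← h, zero_add] at hsum
    rw [← Finset.add_sum_erase _ _ (Finset.mem_univ i), ← h, zero_smul, zero_add] at hlin
    rw [← hlin]
    refine (convex_convexHull ℝ _).sum_mem (fun j _ => hy j) hsum ?_
    intro j hj
    apply subset_convexHull
    have hji : j ≠ i := (Finset.mem_erase.1 hj).1
    have : (j : EuclideanSpace ℝ (Fin d)) ≠ i := fun h => hji (Subtype.ext h)
    show (j : EuclideanSpace ℝ (Fin d)) ∈ ((A.erase i : Finset _) : Set _)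
    simp [this]

/-- If adding `x` does not bring the hull into the open ball, the inner product has a sign. -/
lemma inner_nonneg_of_no_gain (z y x : EuclideanSpace ℝ (Fin d)) (r : ℝ) (hr : 0 < r)
    (hy : dist y z ≤ r) (h : ∀ s : ℝ, 0 ≤ s → s ≤ 1 → r ≤ dist (y + s • (x - y)) z) :
    r ^ 2 ≤ inner ℝ (y - z) (x - z) ∧ dist y z = r := by
  have h0 : dist y z = r := le_antisymm hy (by simpa using h 0 le_rfl zero_le_one)
  refine ⟨?_, h0⟩
  have hn : ‖y - z‖ = r := by rw [← dist_eq_norm]; exact h0
  have key : 0 ≤ inner ℝ (y - z) (x - y) := by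
    by_contra hneg
    push Not at hneg
    set a := inner ℝ (y - z) (x - y) with ha
    set q := ‖x - y‖ ^ 2 with hq
    have hq0 : 0 ≤ q := by positivity
    set s := min 1 (-a / (q + 1)) with hs
    have hs0 : 0 < s := lt_min one_pos (div_pos (by linarith) (by linarith))
    have hs1 : s ≤ 1 := min_le_left _ _
    have hs2 : s * (q + 1) ≤ -a := by
      have : s ≤ -a / (q + 1) := min_le_right _ _
      rwa [le_div_iff₀ (by linarith)] at this
    have h1 := h s hs0.le hs1
    have h2 : dist (y + s • (x - y)) z ^ 2 = r ^ 2 + 2 * s * a + s ^ 2 * q := by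
      rw [dist_eq_norm]
      have : y + s • (x - y) - z = (y - z) + s • (x - y) := by abel
      rw [this, norm_add_sq_real, hn, inner_smul_right, norm_smul, mul_pow, Real.norm_eq_abs, sq_abs]
      ring
    have h3 : r ^ 2 ≤ dist (y + s • (x - y)) z ^ 2 := by gcongr
    nlinarith
  have : x - z = (x - y) + (y - z) := by abel
  rw [this, inner_add_right, real_inner_self_eq_norm_sq, hn]
  linarith

lemma eventually_closer (z y x : EuclideanSpace ℝ (Fin d)) (r : ℝ) (hr : 0 < r)
    (h : dist y z < r ∨ (r ^ 2 ≤ inner ℝ (y - z) (x - z) ∧ dist y z = r)) :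
    ∀ᶠ e : ℝ in 𝓝[>] 0, dist y (z + e • (x - z)) < r := by
  rcases h with h | ⟨h1, h2⟩
  · have hc : Continuous fun e : ℝ => dist y (z + e • (x - z)) := by fun_prop
    have : ∀ᶠ e : ℝ in 𝓝 0, dist y (z + e • (x - z)) < r := by
      apply hc.continuousAt.eventually_lt continuousAt_const
      simpa using h
    exact this.filter_mono nhdsWithin_le_nhds
  · set q := ‖x - z‖ ^ 2 with hq
    have hq0 : 0 ≤ q := by positivity
    have hev : ∀ᶠ e : ℝ in 𝓝[>] 0, e < r ^ 2 / (q + 1) :=
      (eventually_lt_nhds (by positivity)).filter_mono nhdsWithin_le_nhds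
    filter_upwards [hev, self_mem_nhdsWithin] with e he1 he0
    have he0 : 0 < e := he0
    have hn : ‖y - z‖ = r := by rw [← dist_eq_norm]; exact h2
    rw [lt_div_iff₀ (by linarith)] at he1
    have h3 : dist y (z + e • (x - z)) ^ 2
        = r ^ 2 - 2 * e * inner ℝ (y - z) (x - z) + e ^ 2 * q := by
      rw [dist_eq_norm]
      have : y - (z + e • (x - z)) = (y - z) - e • (x - z) := by abel
      rw [this, norm_sub_sq_real, hn, inner_smul_right, norm_smul, mul_pow, Real.norm_eq_abs, sq_abs]
      ring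
    have h4 : dist y (z + e • (x - z)) ^ 2 < r ^ 2 := by
      rw [h3]; nlinarith
    exact lt_of_pow_lt_pow_left₀ 2 hr.le h4

end Pool.Agent.P.MP_daa8d5_co
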