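import Pool.Agent.P.MP_daa8d5_co.Ball

set_option autoImplicit false

namespace Pool.Agent.P.MP_daa8d5_co

open Metric Set Filter Topology

attribute [local instance] decE

variable {d m : ℕ}

/-- Pairwise disjoint subsets of `S`. -/
def Adm (S : Finset (EuclideanSpace ℝ (Fin d))) (A : Fin m → Finset (EuclideanSpace ℝ (Fin d))) :
    Prop :=
  (∀ j, A j ⊆ S) ∧ ∀ i j, i ≠ j → Disjoint (A i) (A j)

/-- Every hull meets the closed ball. -/
def Feas (A : Fin m → Finset (EuclideanSpace ℝ (Fin d))) (z : EuclideanSpace ℝ (Fin d)) (r : ℝ) :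
    Prop :=
  ∀ j, ∃ y ∈ convexHull ℝ (A j : Set (EuclideanSpace ℝ (Fin d))), dist y z ≤ r

/-- The hull meets the open ball. -/
def Inner (B : Finset (EuclideanSpace ℝ (Fin d))) (z : EuclideanSpace ℝ (Fin d)) (r : ℝ) : Prop :=
  ∃ y ∈ convexHull ℝ (B : Set (EuclideanSpace ℝ (Fin d))), dist y z < r

lemma exists_min_radius (S : Finset (EuclideanSpace ℝ (Fin d))) (hm : 0 < m) (hS : m ≤ S.card) :
    ∃ r : ℝ, 0 ≤ r ∧ (∃ A : Fin m → Finset _, ∃ z ∈ convexHull ℝ (S : Set _), Adm S A ∧ Feas A z r) ∧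
      ∀ (A : Fin m → Finset _), ∀ z ∈ convexHull ℝ (S : Set _), ∀ ρ : ℝ, Adm S A → Feas A z ρ →
        r ≤ ρ := by
  haveI : Nonempty (Fin m) := ⟨⟨0, hm⟩⟩
  have hfin : {A : Fin m → Finset (EuclideanSpace ℝ (Fin d)) | Adm S A}.Finite := by
    refine (Set.Finite.pi' (t := fun _ : Fin m => ((S.powerset : Finset _) : Set _))
      (fun _ => Finset.finite_toSet _)).subset ?_
    intro A hA j
    simpa using hA.1 j
  let K : Set (EuclideanSpace ℝ (Fin d) × (Fin m → EuclideanSpace ℝ (Fin d))) :=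
    ⋃ A ∈ {A : Fin m → Finset (EuclideanSpace ℝ (Fin d)) | Adm S A},
      (convexHull ℝ (S : Set _)) ×ˢ Set.pi univ fun j => convexHull ℝ (A j : Set _)
  have hK : IsCompact K := by
    refine hfin.isCompact_biUnion fun A _ => ?_
    exact (S.finite_toSet.isCompact_convexHull ℝ).prod
      (isCompact_univ_pi fun j => (A j).finite_toSet.isCompact_convexHull ℝ)
  obtain ⟨T, hTS, hT⟩ := Finset.exists_subset_card_eq hS
  let e : Fin m ≃ T := (Finset.equivFinOfCardEq hT).symm
  have hne : K.Nonempty := by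
    refine ⟨((e ⟨0, hm⟩ : _), fun j => (e j : _)), ?_⟩
    simp only [K, mem_iUnion]
    refine ⟨fun j => {(e j : EuclideanSpace ℝ (Fin d))}, ⟨fun j => ?_, fun i j hij => ?_⟩, ?_, ?_⟩
    · simpa using hTS (e j).2
    · simp only [Finset.disjoint_singleton]
      intro h
      exact hij (e.injective (Subtype.ext h))
    · exact subset_convexHull _ _ (by exact_mod_cast hTS (e _).2)
    · intro j _
      simp
  have hc : Continuous fun q : EuclideanSpace ℝ (Fin d) × (Fin m → EuclideanSpace ℝ (Fin d)) =>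
      dist q.2 (fun _ => q.1) := by fun_prop
  obtain ⟨q, hq, hmin⟩ := hK.exists_isMinOn hne hc.continuousOn
  refine ⟨dist q.2 (fun _ => q.1), dist_nonneg, ?_, ?_⟩
  · simp only [K, mem_iUnion] at hq
    obtain ⟨A, hA, h1, h2⟩ := hq
    exact ⟨A, q.1, h1, hA, fun j => ⟨q.2 j, h2 j trivial, dist_le_pi_dist q.2 (fun _ => q.1) j⟩⟩
  · intro A z hz ρ hA hF
    choose y hy hd using hF
    have hmem : (z, y) ∈ K := by
      simp only [K, mem_iUnion]
      exact ⟨A, hA, hz, fun j _ => hy j⟩
    have h1 := hmin hmem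
    have h0 : 0 ≤ ρ := dist_nonneg.trans (hd ⟨0, hm⟩)
    exact le_trans h1 ((dist_pi_le_iff h0).2 hd)

/-- At a minimal positive radius any point of `S` improves some tight part. -/
lemma exists_gain (S : Finset (EuclideanSpace ℝ (Fin d))) (hm : 0 < m) (r : ℝ) (hr : 0 < r)
    (hmin : ∀ (A : Fin m → Finset _), ∀ z ∈ convexHull ℝ (S : Set _), ∀ ρ : ℝ, Adm S A →
      Feas A z ρ → r ≤ ρ)
    (A : Fin m → Finset _) (z : EuclideanSpace ℝ (Fin d)) (hz : z ∈ convexHull ℝ (S : Set _))
    (hA : Adm S A) (hF : Feas A z r) (x : EuclideanSpace ℝ (Fin d)) (hx : x ∈ S) :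
    ∃ j, ¬ Inner (A j) z r ∧ Inner (insert x (A j)) z r := by
  haveI : Nonempty (Fin m) := ⟨⟨0, hm⟩⟩
  by_contra hcon
  push Not at hcon
  have : ∀ j, ∃ y ∈ convexHull ℝ (A j : Set (EuclideanSpace ℝ (Fin d))),
      dist y z < r ∨ (r ^ 2 ≤ inner ℝ (y - z) (x - z) ∧ dist y z = r) := by
    intro j
    by_cases hj : Inner (A j) z r
    · obtain ⟨y, hy, hd⟩ := hj
      exact ⟨y, hy, Or.inl hd⟩
    · obtain ⟨y, hy, hd⟩ := hF j
      refine ⟨y, hy, Or.inr (inner_nonneg_of_no_gain z y x r hr hd fun s hs0 hs1 => ?_)⟩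
      by_contra hlt
      push Not at hlt
      apply hcon j hj
      refine ⟨_, ?_, hlt⟩
      have h1 : y ∈ convexHull ℝ ((insert x (A j) : Finset _) : Set (EuclideanSpace ℝ (Fin d))) :=
        convexHull_mono (by simp) hy
      have h2 : x ∈ convexHull ℝ ((insert x (A j) : Finset _) : Set (EuclideanSpace ℝ (Fin d))) :=
        subset_convexHull _ _ (by simp)
      exact (convex_convexHull ℝ _).add_smul_sub_mem h1 h2 ⟨hs0, hs1⟩
  choose y hy hd using this
  have hev : ∀ᶠ e : ℝ in 𝓝[>] 0, ∀ j, dist (y j) (z + e • (x - z)) < r :=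
    eventually_all.2 fun j => eventually_closer z (y j) x r hr (hd j)
  have hev2 : ∀ᶠ e : ℝ in 𝓝[>] 0, e < 1 :=
    (eventually_lt_nhds one_pos).filter_mono nhdsWithin_le_nhds
  obtain ⟨e, ⟨he, he1⟩, he0⟩ := ((hev.and hev2).and self_mem_nhdsWithin).exists
  have he0 : 0 < e := he0
  have hz' : z + e • (x - z) ∈ convexHull ℝ (S : Set (EuclideanSpace ℝ (Fin d))) :=
    (convex_convexHull ℝ _).add_smul_sub_mem hz (subset_convexHull _ _ (by exact_mod_cast hx))
      ⟨he0.le, he1.le⟩
  have h1 := hmin A _ hz' (dist y fun _ => z + e • (x - z)) hA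
    fun j => ⟨y j, hy j, dist_le_pi_dist y (fun _ => z + e • (x - z)) j⟩
  have h2 : (dist y fun _ => z + e • (x - z)) < r := (dist_pi_lt_iff hr).2 he
  linarith

open Classical in
/-- Number of parts whose hull misses the open ball. -/
noncomputable def tight (A : Fin m → Finset (EuclideanSpace ℝ (Fin d)))
    (z : EuclideanSpace ℝ (Fin d)) (r : ℝ) : ℕ :=
  (Finset.univ.filter fun j => ¬ Inner (A j) z r).card

lemma main_pos (S : Finset (EuclideanSpace ℝ (Fin d))) (hm : 0 < m) (r : ℝ) (hr : 0 < r)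
    (hex : ∃ A : Fin m → Finset _, ∃ z ∈ convexHull ℝ (S : Set _), Adm S A ∧ Feas A z r)
    (hmin : ∀ (A : Fin m → Finset _), ∀ z ∈ convexHull ℝ (S : Set _), ∀ ρ : ℝ, Adm S A →
      Feas A z ρ → r ≤ ρ) (t : ℕ) (hS : m * d + t ≤ S.card) :
    ∃ A : Fin m → Finset _, ∃ z, Adm S A ∧ Feas A z r ∧ ∃ T : Finset (Fin m), T.card = t ∧
      ∀ i ∈ T, closedBall z r ⊆ convexHull ℝ (A i : Set (EuclideanSpace ℝ (Fin d))) := by
  classical
  let P : Set ((Fin m → Finset (EuclideanSpace ℝ (Fin d))) × EuclideanSpace ℝ (Fin d)) :=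
    {q | q.2 ∈ convexHull ℝ (S : Set _) ∧ Adm S q.1 ∧ Feas q.1 q.2 r}
  have hP : P.Nonempty := by
    obtain ⟨A, z, hz, h1, h2⟩ := hex
    exact ⟨(A, z), hz, h1, h2⟩
  obtain ⟨q0, hq0, hmin0⟩ := (InvImage.wf (fun q : (Fin m → Finset (EuclideanSpace ℝ (Fin d))) ×
    EuclideanSpace ℝ (Fin d) => tight q.1 q.2 r) wellFounded_lt).has_min P hP
  let P' := {q ∈ P | tight q.1 q.2 r ≤ tight q0.1 q0.2 r}
  obtain ⟨⟨A, z⟩, ⟨⟨hz, hA, hF⟩, hq⟩, hmin1⟩ :=
    (InvImage.wf (fun q : (Fin m → Finset (EuclideanSpace ℝ (Fin d))) ×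
    EuclideanSpace ℝ (Fin d) => ∑ j, (q.1 j).card) wellFounded_lt).has_min P' ⟨q0, hq0, le_rfl⟩
  simp only at hz hA hF hq
  -- the parts cover `S`
  have hcov : ∀ x ∈ S, ∃ j, x ∈ A j := by
    intro x hx
    by_contra hno
    push Not at hno
    obtain ⟨j, hj1, hj2⟩ := exists_gain S hm r hr hmin A z hz hA hF x hx
    let A' := Function.update A j (insert x (A j))
    have hsub : ∀ i, A i ⊆ A' i := by
      intro i
      by_cases hi : i = j
      · subst hi; simp [A']
      · simp [A', hi]
    have hA' : Adm S A' := by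
      refine ⟨fun i => ?_, fun i k hik => ?_⟩
      · by_cases hi : i = j
        · subst hi; simp [A', Finset.insert_subset_iff, hx, hA.1 i]
        · simp [A', hi, hA.1 i]
      · by_cases hi : i = j
        · subst hi
          simp [A', Ne.symm hik, hno k, hA.2 i k hik]
        · by_cases hk : k = j
          · subst hk
            simp [A', hi, hno i, hA.2 i k hik]
          · simp [A', hi, hk, hA.2 i k hik]
    have hF' : Feas A' z r := fun i => by
      obtain ⟨y, hy, hd⟩ := hF i
      exact ⟨y, convexHull_mono (by exact_mod_cast hsub i) hy, hd⟩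
    apply hmin0 (A', z) ⟨hz, hA', hF'⟩
    show tight A' z r < tight q0.1 q0.2 r
    refine lt_of_lt_of_le ?_ hq
    unfold tight
    apply Finset.card_lt_card
    refine ⟨fun i hi => ?_, fun h => ?_⟩
    · simp only [Finset.mem_filter, Finset.mem_univ, true_and] at hi ⊢
      rintro ⟨y, hy, hd⟩
      exact hi ⟨y, convexHull_mono (by exact_mod_cast hsub i) hy, hd⟩
    · have := h (Finset.mem_filter.2 ⟨Finset.mem_univ j, hj1⟩)
      simp only [Finset.mem_filter, Finset.mem_univ, true_and] at this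
      apply this
      simpa [A'] using hj2
  -- every point is essential
  have hess : ∀ j, ∀ x ∈ A j, ∀ y ∈ convexHull ℝ (((A j).erase x : Finset _) : Set _),
      dist y z ≤ r → (Inner (A j) z r → dist y z < r) → False := by
    intro j x hx y hy hd hin
    let A' := Function.update A j ((A j).erase x)
    have hsub : ∀ i, A' i ⊆ A i := by
      intro i
      by_cases hi : i = j
      · subst hi; simp [A', Finset.erase_subset]
      · simp [A', hi]
    have hA' : Adm S A' :=
      ⟨fun i => (hsub i).trans (hA.1 i),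
        fun i k hik => Finset.disjoint_of_subset_left (hsub i)
          (Finset.disjoint_of_subset_right (hsub k) (hA.2 i k hik))⟩
    have hF' : Feas A' z r := fun i => by
      by_cases hi : i = j
      · subst hi
        exact ⟨y, by simpa [A'] using hy, hd⟩
      · simpa [A', hi] using hF i
    have ht : tight A' z r ≤ tight A z r := by
      unfold tight
      apply Finset.card_le_card
      intro i hi
      simp only [Finset.mem_filter, Finset.mem_univ, true_and] at hi ⊢
      intro h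
      apply hi
      by_cases hij : i = j
      · subst hij
        exact ⟨y, by simpa [A'] using hy, hin h⟩
      · simpa [A', hij] using h
    apply hmin1 (A', z) ⟨⟨hz, hA', hF'⟩, ht.trans hq⟩
    show ∑ i, (A' i).card < ∑ i, (A i).card
    apply Finset.sum_lt_sum (fun i _ => Finset.card_le_card (hsub i))
    exact ⟨j, Finset.mem_univ _, by simpa [A'] using Finset.card_erase_lt_of_mem hx⟩
  have hcard : ∀ j, (A j).card ≤ d + 1 := by
    intro j
    by_cases hj : Inner (A j) z r
    · obtain ⟨y, hy, hd⟩ := hj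
      exact card_le_of_essential _ y hy fun x hx h => hess j x hx y h hd.le fun _ => hd
    · obtain ⟨y, hy, hd⟩ := hF j
      exact card_le_of_essential _ y hy fun x hx h => hess j x hx y h hd fun h' => absurd h' hj
  have hfull : ∀ j, (A j).card = d + 1 →
      closedBall z r ⊆ convexHull ℝ (A j : Set (EuclideanSpace ℝ (Fin d))) := by
    intro j hc
    have hcl : IsClosed (convexHull ℝ (A j : Set (EuclideanSpace ℝ (Fin d)))) :=
      (A j).finite_toSet.isClosed_convexHull ℝ
    have hj : Inner (A j) z r := by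
      by_contra hj
      obtain ⟨y, hy, hd⟩ := hF j
      have hi := interior_of_essential _ y hy
        (fun x hx h => hess j x hx y h hd fun h' => absurd h' hj) hc
      have hyc : y ∈ closure (ball z r) := by
        rw [closure_ball z hr.ne']; exact hd
      obtain ⟨w, hw1, hw2⟩ := mem_closure_iff.1 hyc _ isOpen_interior hi
      exact hj ⟨w, interior_subset hw1, hw2⟩
    have hb : ball z r ⊆ interior (convexHull ℝ (A j : Set (EuclideanSpace ℝ (Fin d)))) := by
      have hin : ∀ y ∈ ball z r, y ∈ convexHull ℝ (A j : Set (EuclideanSpace ℝ (Fin d))) →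
          y ∈ interior (convexHull ℝ (A j : Set (EuclideanSpace ℝ (Fin d)))) := fun y hd hy =>
        interior_of_essential _ y hy
          (fun x hx h => hess j x hx y h (le_of_lt hd) fun _ => hd) hc
      refine (convex_ball z r).isPreconnected.subset_left_of_subset_union isOpen_interior
        hcl.isOpen_compl ?_ ?_ ?_
      · exact disjoint_compl_right.mono_left interior_subset
      · intro y hy
        by_cases h : y ∈ convexHull ℝ (A j : Set (EuclideanSpace ℝ (Fin d)))
        · exact Or.inl (hin y hy h)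
        · exact Or.inr h
      · obtain ⟨y, hy, hd⟩ := hj
        exact ⟨y, hd, hin y hd hy⟩
    rw [← closure_ball z hr.ne']
    exact closure_minimal (hb.trans interior_subset) hcl
  have hcount : t ≤ (Finset.univ.filter fun j => (A j).card = d + 1).card := by
    have h1 : S.card ≤ ∑ j, (A j).card := by
      refine le_trans (Finset.card_le_card ?_) (Finset.card_biUnion_le (s := Finset.univ) (t := A))
      intro x hx
      obtain ⟨j, hj⟩ := hcov x hx
      exact Finset.mem_biUnion.2 ⟨j, Finset.mem_univ _, hj⟩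
    have h2 : ∑ j, (A j).card ≤ ∑ j : Fin m, (d + if (A j).card = d + 1 then 1 else 0) := by
      apply Finset.sum_le_sum
      intro j _
      have := hcard j
      split_ifs <;> omega
    rw [Finset.sum_add_distrib, Finset.sum_boole] at h2
    simp only [Finset.sum_const, Finset.card_univ, Fintype.card_fin, smul_eq_mul, Nat.cast_id] at h2
    omega
  obtain ⟨T, hT, hTc⟩ := Finset.exists_subset_card_eq hcount
  exact ⟨A, z, hA, hF, T, hTc, fun i hi => hfull i (Finset.mem_filter.1 (hT hi)).2⟩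

theorem main (d m t : ℕ) (hd : 1 ≤ d) (ht : t < m) (S : Finset (EuclideanSpace ℝ (Fin d)))
    (hS : m * d + t ≤ S.card) :
    ∃ c : EuclideanSpace ℝ (Fin d) → Fin m, ∃ T : Finset (Fin m), T.card = t ∧
      ∀ j : Fin m, ∃ y ∈ convexHull ℝ {x | x ∈ S ∧ c x = j},
        ∀ i ∈ T, y ∈ convexHull ℝ {x | x ∈ S ∧ c x = i} := by
  classical
  have hm : 0 < m := by omega
  have hS' : m ≤ S.card := le_trans (by nlinarith) hS
  obtain ⟨r, hr0, hex, hmin⟩ := exists_min_radius S hm hS'
  have : ∃ A : Fin m → Finset _, ∃ z, Adm S A ∧ Feas A z r ∧ ∃ T : Finset (Fin m), T.card = t ∧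
      ∀ i ∈ T, closedBall z r ⊆ convexHull ℝ (A i : Set (EuclideanSpace ℝ (Fin d))) := by
    rcases hr0.lt_or_eq with hr | hr
    · exact main_pos S hm r hr hex hmin t hS
    · obtain ⟨A, z, -, hA, hF⟩ := hex
      obtain ⟨T, -, hT⟩ := Finset.exists_subset_card_eq (s := (Finset.univ : Finset (Fin m)))
        (n := t) (by simp; omega)
      refine ⟨A, z, hA, hF, T, hT, fun i _ => ?_⟩
      obtain ⟨y, hy, hd⟩ := hF i
      subst hr
      have : y = z := by simpa using hd
      subst this
      simpa using hy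
  obtain ⟨A, z, hA, hF, T, hT, hb⟩ := this
  let c : EuclideanSpace ℝ (Fin d) → Fin m := fun x =>
    if h : ∃ j, x ∈ A j then h.choose else ⟨0, hm⟩
  have hsub : ∀ j, (A j : Set (EuclideanSpace ℝ (Fin d))) ⊆ {x | x ∈ S ∧ c x = j} := by
    intro j x hx
    have hx : x ∈ A j := by exact_mod_cast hx
    refine ⟨hA.1 j hx, ?_⟩
    have h : ∃ j, x ∈ A j := ⟨j, hx⟩
    simp only [c, dif_pos h]
    by_contra hne
    exact Finset.disjoint_left.1 (hA.2 _ _ hne) h.choose_spec hx
  refine ⟨c, T, hT, fun j => ?_⟩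
  obtain ⟨y, hy, hd⟩ := hF j
  exact ⟨y, convexHull_mono (hsub j) hy, fun i hi => convexHull_mono (hsub i) (hb i hi hd)⟩

end Pool.Agent.P.MP_daa8d5_co
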